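import Mathlib

/-!
# MP_e5893c_co: the second neighbourhood sum in Eulerian oriented graphs

For an Eulerian oriented graph put `d v` for the common in- and out-degree, and call `x` a balanced
arc weighting if `x ≥ 0` is supported on the arcs and has row and column sums `d`.  Then
`∑ |N₂⁺(v)| ≥ |E| - (1/2) ∑ x(u,v) (c⁺(u,v)/d(u) + c⁻(u,v)/d(v))`,
where `c⁺`, `c⁻` count common out- and in-neighbours.
-/

open Finset

namespace Pool.Agent.Helper495.SN

variable {V : Type*} [Fintype V]

open Classical in
/-- out-neighbours of `v` -/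
noncomputable def Out (E : V → V → Prop) (v : V) : Finset V := univ.filter (fun w => E v w)

open Classical in
/-- in-neighbours of `v` -/
noncomputable def In (E : V → V → Prop) (v : V) : Finset V := univ.filter (fun w => E w v)

open Classical in
/-- second out-neighbourhood: vertices at distance exactly two from `v` -/
noncomputable def N2 (E : V → V → Prop) (v : V) : Finset V :=
  univ.filter (fun w => w ≠ v ∧ ¬ E v w ∧ ∃ u, E v u ∧ E u w)

/-- Eulerian oriented graph: no loops, no digons, in-degree equals out-degree everywhere. -/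
structure EulerianOriented (E : V → V → Prop) : Prop where
  noLoop : ∀ v, ¬ E v v
  noDigon : ∀ u v, E u v → ¬ E v u
  balanced : ∀ v, (Out E v).card = (In E v).card

open Classical in
/-- number of common out-neighbours of `u` and `v` -/
noncomputable def cOut (E : V → V → Prop) (u v : V) : ℕ := (univ.filter (fun w => E u w ∧ E v w)).card

open Classical in
/-- number of common in-neighbours of `u` and `v` -/
noncomputable def cIn (E : V → V → Prop) (u v : V) : ℕ := (univ.filter (fun w => E w u ∧ E w v)).card

/-- balanced arc weighting: non-negative, supported on the arcs, row sums and column sums equal to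
the degrees -/
structure BalancedWeight (E : V → V → Prop) (x : V → V → ℝ) : Prop where
  nonneg : ∀ u v, 0 ≤ x u v
  supp : ∀ u v, ¬ E u v → x u v = 0
  row : ∀ u, ∑ v, x u v = ((Out E u).card : ℝ)
  col : ∀ v, ∑ u, x u v = ((Out E v).card : ℝ)

lemma mem_Out (E : V → V → Prop) (v w : V) : w ∈ Out E v ↔ E v w := by simp [Out]
lemma mem_In (E : V → V → Prop) (v w : V) : w ∈ In E v ↔ E w v := by simp [In]

open Classical in
/-- reversed second neighbourhood -/
noncomputable def N2r (E : V → V → Prop) (w : V) : Finset V :=
  univ.filter (fun v => w ≠ v ∧ ¬ E v w ∧ ∃ u, E v u ∧ E u w)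

lemma sum_N2_eq (E : V → V → Prop) : ∑ v, (N2 E v).card = ∑ w, (N2r E w).card := by
  classical
  unfold N2 N2r
  simp only [Finset.card_filter]
  exact Finset.sum_comm

/-- a single arc `u → v` gives `d v - c⁺(u,v)` vertices at distance two from `u` -/
lemma card_N2_ge (E : V → V → Prop) (h : EulerianOriented E) (u v : V) (huv : E u v) :
    (Out E v).card ≤ (N2 E u).card + cOut E u v := by
  classical
  have hsub : Out E v ⊆ N2 E u ∪ univ.filter (fun w => E u w ∧ E v w) := by
    intro w hw
    rw [mem_Out] at hw
    by_cases huw : E u w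
    · apply mem_union_right
      simp [huw, hw]
    · apply mem_union_left
      unfold N2
      simp only [mem_filter, mem_univ, true_and]
      refine ⟨?_, huw, v, huv, hw⟩
      rintro rfl
      exact h.noDigon _ _ huv hw
  calc (Out E v).card ≤ _ := card_le_card hsub
    _ ≤ (N2 E u).card + cOut E u v := by
        refine le_trans (card_union_le _ _) ?_
        unfold cOut; exact le_rfl

lemma card_N2r_ge (E : V → V → Prop) (h : EulerianOriented E) (u v : V) (huv : E u v) :
    (In E u).card ≤ (N2r E v).card + cIn E u v := by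
  classical
  have hsub : In E u ⊆ N2r E v ∪ univ.filter (fun w => E w u ∧ E w v) := by
    intro w hw
    rw [mem_In] at hw
    by_cases hwv : E w v
    · apply mem_union_right
      simp [hwv, hw]
    · apply mem_union_left
      unfold N2r
      simp only [mem_filter, mem_univ, true_and]
      refine ⟨?_, hwv, u, hw, huv⟩
      rintro rfl
      exact h.noDigon _ _ huv hw
  calc (In E u).card ≤ _ := card_le_card hsub
    _ ≤ (N2r E v).card + cIn E u v := by
        refine le_trans (card_union_le _ _) ?_
        unfold cIn; exact le_rfl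

/-- out side, one vertex -/
lemma out_side (E : V → V → Prop) (h : EulerianOriented E) (x : V → V → ℝ)
    (hx : BalancedWeight E x) (u : V) :
    ∑ v, x u v * (((Out E v).card : ℝ) - cOut E u v) / (Out E u).card ≤ (N2 E u).card := by
  classical
  have h1 : ∀ v, x u v * (((Out E v).card : ℝ) - cOut E u v) / (Out E u).card ≤
      x u v * (N2 E u).card / (Out E u).card := by
    intro v
    by_cases huv : E u v
    · have h2 := card_N2_ge E h u v huv
      have h3 : ((Out E v).card : ℝ) - cOut E u v ≤ (N2 E u).card := by
        have : ((Out E v).card : ℝ) ≤ (N2 E u).card + cOut E u v := by exact_mod_cast h2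
        linarith
      have h4 := mul_le_mul_of_nonneg_left h3 (hx.nonneg u v)
      exact div_le_div_of_nonneg_right h4 (by positivity)
    · rw [hx.supp u v huv]; simp
  refine le_trans (Finset.sum_le_sum fun v _ => h1 v) ?_
  rw [← Finset.sum_div, ← Finset.sum_mul, hx.row u]
  rcases Nat.eq_zero_or_pos (Out E u).card with h0 | h0
  · rw [h0]; simp
  · have : ((Out E u).card : ℝ) ≠ 0 := by positivity
    rw [mul_comm, mul_div_assoc, div_self this, mul_one]

/-- in side, one vertex -/
lemma in_side (E : V → V → Prop) (h : EulerianOriented E) (x : V → V → ℝ)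
    (hx : BalancedWeight E x) (v : V) :
    ∑ u, x u v * (((Out E u).card : ℝ) - cIn E u v) / (Out E v).card ≤ (N2r E v).card := by
  classical
  have h1 : ∀ u, x u v * (((Out E u).card : ℝ) - cIn E u v) / (Out E v).card ≤
      x u v * (N2r E v).card / (Out E v).card := by
    intro u
    by_cases huv : E u v
    · have h2 := card_N2r_ge E h u v huv
      rw [← h.balanced u] at h2
      have h3 : ((Out E u).card : ℝ) - cIn E u v ≤ (N2r E v).card := by
        have : ((Out E u).card : ℝ) ≤ (N2r E v).card + cIn E u v := by exact_mod_cast h2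
        linarith
      have h4 := mul_le_mul_of_nonneg_left h3 (hx.nonneg u v)
      exact div_le_div_of_nonneg_right h4 (by positivity)
    · rw [hx.supp u v huv]; simp
  refine le_trans (Finset.sum_le_sum fun u _ => h1 u) ?_
  rw [← Finset.sum_div, ← Finset.sum_mul, hx.col v]
  rcases Nat.eq_zero_or_pos (Out E v).card with h0 | h0
  · rw [h0]; simp
  · have : ((Out E v).card : ℝ) ≠ 0 := by positivity
    rw [mul_comm, mul_div_assoc, div_self this, mul_one]

lemma two_le_ratio {a b : ℝ} (ha : 0 < a) (hb : 0 < b) : 2 ≤ a / b + b / a := by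
  rw [div_add_div _ _ hb.ne' ha.ne', le_div_iff₀ (by positivity)]
  nlinarith [sq_nonneg (a - b)]

/-- the weighted inequality -/
theorem weighted (E : V → V → Prop) (h : EulerianOriented E) (x : V → V → ℝ)
    (hx : BalancedWeight E x) :
    (∑ v, ((Out E v).card : ℝ)) -
      (1 / 2) * ∑ u, ∑ v, x u v * ((cOut E u v : ℝ) / (Out E u).card +
        (cIn E u v : ℝ) / (Out E v).card) ≤ ∑ v, ((N2 E v).card : ℝ) := by
  classical
  have hA : ∑ u, ∑ v, x u v * (((Out E v).card : ℝ) - cOut E u v) / (Out E u).card ≤
      ∑ u, ((N2 E u).card : ℝ) := Finset.sum_le_sum fun u _ => out_side E h x hx u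
  have hB : ∑ v, ∑ u, x u v * (((Out E u).card : ℝ) - cIn E u v) / (Out E v).card ≤
      ∑ v, ((N2r E v).card : ℝ) := Finset.sum_le_sum fun v _ => in_side E h x hx v
  have hC : ∑ v, ((N2r E v).card : ℝ) = ∑ v, ((N2 E v).card : ℝ) := by
    exact_mod_cast (sum_N2_eq E).symm
  rw [hC, Finset.sum_comm] at hB
  have hD : ∑ u, ∑ v, x u v = ∑ u, ((Out E u).card : ℝ) :=
    Finset.sum_congr rfl fun u _ => hx.row u
  have key : ∀ u v, 2 * x u v - x u v * ((cOut E u v : ℝ) / (Out E u).card +
        (cIn E u v : ℝ) / (Out E v).card) ≤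
      x u v * (((Out E v).card : ℝ) - cOut E u v) / (Out E u).card +
      x u v * (((Out E u).card : ℝ) - cIn E u v) / (Out E v).card := by
    intro u v
    by_cases huv : E u v
    · have hu : 0 < (Out E u).card := card_pos.mpr ⟨v, (mem_Out E u v).mpr huv⟩
      have hv : 0 < (Out E v).card := by
        rw [h.balanced v]; exact card_pos.mpr ⟨u, (mem_In E v u).mpr huv⟩
      have hu' : (0 : ℝ) < (Out E u).card := by exact_mod_cast hu
      have hv' : (0 : ℝ) < (Out E v).card := by exact_mod_cast hv
      have h1 := mul_le_mul_of_nonneg_left (two_le_ratio hv' hu') (hx.nonneg u v)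
      have e1 : x u v * (((Out E v).card : ℝ) - cOut E u v) / (Out E u).card =
          x u v * (((Out E v).card : ℝ) / (Out E u).card) -
            x u v * ((cOut E u v : ℝ) / (Out E u).card) := by ring
      have e2 : x u v * (((Out E u).card : ℝ) - cIn E u v) / (Out E v).card =
          x u v * (((Out E u).card : ℝ) / (Out E v).card) -
            x u v * ((cIn E u v : ℝ) / (Out E v).card) := by ring
      rw [e1, e2]
      nlinarith [h1]
    · rw [hx.supp u v huv]; simp
  have hE : ∑ u, ∑ v, (2 * x u v - x u v * ((cOut E u v : ℝ) / (Out E u).card +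
        (cIn E u v : ℝ) / (Out E v).card)) ≤
      (∑ u, ∑ v, x u v * (((Out E v).card : ℝ) - cOut E u v) / (Out E u).card) +
      ∑ u, ∑ v, x u v * (((Out E u).card : ℝ) - cIn E u v) / (Out E v).card := by
    rw [← Finset.sum_add_distrib]
    apply Finset.sum_le_sum; intro u _
    rw [← Finset.sum_add_distrib]
    apply Finset.sum_le_sum; intro v _
    exact key u v
  have hF : ∑ u, ∑ v, (2 * x u v - x u v * ((cOut E u v : ℝ) / (Out E u).card +
        (cIn E u v : ℝ) / (Out E v).card)) =
      2 * ∑ u, ((Out E u).card : ℝ) - ∑ u, ∑ v, x u v * ((cOut E u v : ℝ) / (Out E u).card +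
        (cIn E u v : ℝ) / (Out E v).card) := by
    rw [← hD, Finset.mul_sum]
    simp only [Finset.mul_sum, Finset.sum_sub_distrib]
  rw [hF] at hE
  linarith



open Classical in
/-- arc indicator -/
noncomputable def ind (E : V → V → Prop) (u v : V) : ℝ := if E u v then 1 else 0

lemma ind_balanced (E : V → V → Prop) (h : EulerianOriented E) : BalancedWeight E (ind E) := by
  classical
  refine ⟨?_, ?_, ?_, ?_⟩
  · intro u v; unfold ind; split_ifs <;> norm_num
  · intro u v huv; unfold ind; simp [huv]
  · intro u; unfold ind Out; simp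
  · intro v; rw [h.balanced v]; unfold ind In; simp

/-- inside the out-neighbourhood: twice the number of arcs is at most `d (d - 1)` -/
lemma sum_cOut_le (E : V → V → Prop) (h : EulerianOriented E) (u : V) :
    2 * ∑ v ∈ Out E u, cOut E u v + (Out E u).card ≤ (Out E u).card * (Out E u).card := by
  classical
  have e1 : ∑ v ∈ Out E u, cOut E u v =
      ((Out E u ×ˢ Out E u).filter (fun p => E p.1 p.2)).card := by
    rw [Finset.card_filter, Finset.sum_product]
    apply Finset.sum_congr rfl
    intro v _
    unfold cOut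
    rw [← Finset.card_filter]
    congr 1
    ext w
    simp [Out]
  have e2 : ((Out E u ×ˢ Out E u).filter (fun p => E p.1 p.2)).card =
      ((Out E u ×ˢ Out E u).filter (fun p => E p.2 p.1)).card := by
    apply Finset.card_bij (fun p _ => (p.2, p.1))
    · intro p hp; simp only [mem_filter, mem_product] at hp ⊢; exact ⟨⟨hp.1.2, hp.1.1⟩, hp.2⟩
    · intro p _ q _ hpq; simp only [Prod.mk.injEq] at hpq; exact Prod.ext hpq.2 hpq.1
    · intro p hp; refine ⟨(p.2, p.1), ?_, rfl⟩
      simp only [mem_filter, mem_product] at hp ⊢; exact ⟨⟨hp.1.2, hp.1.1⟩, hp.2⟩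
  have e3 : ((Out E u ×ˢ Out E u).filter (fun p => E p.1 p.2)).card +
      ((Out E u ×ˢ Out E u).filter (fun p => E p.2 p.1)).card +
      ((Out E u ×ˢ Out E u).filter (fun p => p.1 = p.2)).card ≤ (Out E u ×ˢ Out E u).card := by
    rw [← card_union_of_disjoint, ← card_union_of_disjoint]
    · apply card_le_card
      intro p hp
      simp only [mem_union, mem_filter] at hp
      rcases hp with (hp | hp) | hp <;> exact hp.1
    · rw [Finset.disjoint_left]
      intro p hp hq
      simp only [mem_union, mem_filter] at hp hq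
      rcases hp with hp | hp
      · rw [hq.2] at hp; exact h.noLoop _ hp.2
      · rw [hq.2] at hp; exact h.noLoop _ hp.2
    · rw [Finset.disjoint_left]
      intro p hp hq
      simp only [mem_filter] at hp hq
      exact h.noDigon _ _ hp.2 hq.2
  have e4 : ((Out E u ×ˢ Out E u).filter (fun p => p.1 = p.2)).card = (Out E u).card := by
    symm
    apply Finset.card_bij (fun a _ => (a, a))
    · intro a ha; simp [ha]
    · intro a _ b _ hab; simpa using hab
    · intro p hp; simp only [mem_filter, mem_product] at hp
      exact ⟨p.1, hp.1.1, Prod.ext rfl hp.2⟩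
  rw [card_product] at e3
  omega

lemma sum_cIn_le (E : V → V → Prop) (h : EulerianOriented E) (v : V) :
    2 * ∑ u ∈ In E v, cIn E u v + (In E v).card ≤ (In E v).card * (In E v).card := by
  classical
  have e1 : ∑ u ∈ In E v, cIn E u v =
      ((In E v ×ˢ In E v).filter (fun p => E p.2 p.1)).card := by
    rw [Finset.card_filter, Finset.sum_product]
    apply Finset.sum_congr rfl
    intro u _
    unfold cIn
    rw [← Finset.card_filter]
    congr 1
    ext w
    simp only [mem_filter, mem_univ, true_and, In]
    tauto
  have e2 : ((In E v ×ˢ In E v).filter (fun p => E p.2 p.1)).card =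
      ((In E v ×ˢ In E v).filter (fun p => E p.1 p.2)).card := by
    apply Finset.card_bij (fun p _ => (p.2, p.1))
    · intro p hp; simp only [mem_filter, mem_product] at hp ⊢; exact ⟨⟨hp.1.2, hp.1.1⟩, hp.2⟩
    · intro p _ q _ hpq; simp only [Prod.mk.injEq] at hpq; exact Prod.ext hpq.2 hpq.1
    · intro p hp; refine ⟨(p.2, p.1), ?_, rfl⟩
      simp only [mem_filter, mem_product] at hp ⊢; exact ⟨⟨hp.1.2, hp.1.1⟩, hp.2⟩
  have e3 : ((In E v ×ˢ In E v).filter (fun p => E p.2 p.1)).card +
      ((In E v ×ˢ In E v).filter (fun p => E p.1 p.2)).card +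
      ((In E v ×ˢ In E v).filter (fun p => p.1 = p.2)).card ≤ (In E v ×ˢ In E v).card := by
    rw [← card_union_of_disjoint, ← card_union_of_disjoint]
    · apply card_le_card
      intro p hp
      simp only [mem_union, mem_filter] at hp
      rcases hp with (hp | hp) | hp <;> exact hp.1
    · rw [Finset.disjoint_left]
      intro p hp hq
      simp only [mem_union, mem_filter] at hp hq
      rcases hp with hp | hp
      · rw [hq.2] at hp; exact h.noLoop _ hp.2
      · rw [hq.2] at hp; exact h.noLoop _ hp.2
    · rw [Finset.disjoint_left]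
      intro p hp hq
      simp only [mem_filter] at hp hq
      exact h.noDigon _ _ hp.2 hq.2
  have e4 : ((In E v ×ˢ In E v).filter (fun p => p.1 = p.2)).card = (In E v).card := by
    symm
    apply Finset.card_bij (fun a _ => (a, a))
    · intro a ha; simp [ha]
    · intro a _ b _ hab; simpa using hab
    · intro p hp; simp only [mem_filter, mem_product] at hp
      exact ⟨p.1, hp.1.1, Prod.ext rfl hp.2⟩
  rw [card_product] at e3
  omega

/-- number of non-isolated vertices -/
noncomputable def nonIso (E : V → V → Prop) : ℕ := by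
  classical
  exact (univ.filter (fun v : V => 0 < (Out E v).card)).card

/-- the half bound -/
theorem half (E : V → V → Prop) (h : EulerianOriented E) :
    ∑ v, (Out E v).card + nonIso E ≤ 2 * ∑ v, (N2 E v).card := by
  classical
  have h1 := weighted E h (ind E) (ind_balanced E h)
  have a1 : ∀ u, ∑ v, ind E u v * ((cOut E u v : ℝ) / (Out E u).card) ≤
      (1 / 2) * ((Out E u).card : ℝ) - (1 / 2) * (if 0 < (Out E u).card then 1 else 0) := by
    intro u
    have e : ∑ v, ind E u v * ((cOut E u v : ℝ) / (Out E u).card) =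
        ((∑ v ∈ Out E u, cOut E u v : ℕ) : ℝ) / (Out E u).card := by
      push_cast
      rw [Finset.sum_div]
      unfold Out
      rw [Finset.sum_filter]
      apply Finset.sum_congr rfl
      intro v _
      unfold ind
      split_ifs <;> simp
    rw [e]
    rcases Nat.eq_zero_or_pos (Out E u).card with h0 | h0
    · rw [h0]; simp
    · have h2 := sum_cOut_le E h u
      have h3 : (2 * ((∑ v ∈ Out E u, cOut E u v : ℕ) : ℝ) + (Out E u).card) ≤
          (Out E u).card * (Out E u).card := by exact_mod_cast h2
      have h4 : (0 : ℝ) < (Out E u).card := by exact_mod_cast h0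
      rw [if_pos h0, div_le_iff₀ h4]
      linarith
  have a2 : ∀ v, ∑ u, ind E u v * ((cIn E u v : ℝ) / (Out E v).card) ≤
      (1 / 2) * ((Out E v).card : ℝ) - (1 / 2) * (if 0 < (Out E v).card then 1 else 0) := by
    intro v
    have e : ∑ u, ind E u v * ((cIn E u v : ℝ) / (Out E v).card) =
        ((∑ u ∈ In E v, cIn E u v : ℕ) : ℝ) / (Out E v).card := by
      push_cast
      rw [Finset.sum_div]
      unfold In
      rw [Finset.sum_filter]
      apply Finset.sum_congr rfl
      intro u _
      unfold ind
      split_ifs <;> simp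
    rw [e]
    rcases Nat.eq_zero_or_pos (Out E v).card with h0 | h0
    · rw [h0]; simp
    · have h2 := sum_cIn_le E h v
      rw [← h.balanced v] at h2
      have h3 : (2 * ((∑ u ∈ In E v, cIn E u v : ℕ) : ℝ) + (Out E v).card) ≤
          (Out E v).card * (Out E v).card := by exact_mod_cast h2
      have h4 : (0 : ℝ) < (Out E v).card := by exact_mod_cast h0
      rw [if_pos h0, div_le_iff₀ h4]
      linarith
  have b : ∑ u, ∑ v, ind E u v * ((cOut E u v : ℝ) / (Out E u).card +
        (cIn E u v : ℝ) / (Out E v).card) =
      (∑ u, ∑ v, ind E u v * ((cOut E u v : ℝ) / (Out E u).card)) +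
      ∑ v, ∑ u, ind E u v * ((cIn E u v : ℝ) / (Out E v).card) := by
    rw [Finset.sum_comm (f := fun v u => ind E u v * ((cIn E u v : ℝ) / (Out E v).card)),
      ← Finset.sum_add_distrib]
    apply Finset.sum_congr rfl; intro u _
    rw [← Finset.sum_add_distrib]
    apply Finset.sum_congr rfl; intro v _
    ring
  have c1 := Finset.sum_le_sum (fun u (_ : u ∈ (univ : Finset V)) => a1 u)
  have c2 := Finset.sum_le_sum (fun v (_ : v ∈ (univ : Finset V)) => a2 v)
  rw [Finset.sum_sub_distrib, ← Finset.mul_sum, ← Finset.mul_sum] at c1 c2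
  have d1 : ∑ v : V, (if 0 < (Out E v).card then (1 : ℝ) else 0) = (nonIso E : ℝ) := by
    unfold nonIso; simp
  rw [d1] at c1 c2
  rw [b] at h1
  have fin : (∑ v, ((Out E v).card : ℝ)) + nonIso E ≤ 2 * ∑ v, ((N2 E v).card : ℝ) := by
    linarith
  exact_mod_cast fin

/-- class of graphs for which the full inequality follows -/
theorem full_of_weight (E : V → V → Prop) (h : EulerianOriented E) (x : V → V → ℝ)
    (hx : BalancedWeight E x) (h0 : ∀ u v, x u v ≠ 0 → cOut E u v = 0 ∧ cIn E u v = 0) :
    ∑ v, (Out E v).card ≤ ∑ v, (N2 E v).card := by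
  classical
  have h1 := weighted E h x hx
  have h2 : ∑ u, ∑ v, x u v * ((cOut E u v : ℝ) / (Out E u).card +
        (cIn E u v : ℝ) / (Out E v).card) = 0 := by
    apply Finset.sum_eq_zero; intro u _
    apply Finset.sum_eq_zero; intro v _
    by_cases hxu : x u v = 0
    · rw [hxu]; simp
    · obtain ⟨h3, h4⟩ := h0 u v hxu
      rw [h3, h4]; simp
  rw [h2] at h1
  have h3 : ∑ v, ((Out E v).card : ℝ) ≤ ∑ v, ((N2 E v).card : ℝ) := by linarith
  exact_mod_cast h3

/-- the full inequality without transitive triangles -/
theorem full_of_noTransitive (E : V → V → Prop) (h : EulerianOriented E)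
    (h0 : ∀ u v w, E u v → E v w → ¬ E u w) :
    ∑ v, (Out E v).card ≤ ∑ v, (N2 E v).card := by
  classical
  apply full_of_weight E h (ind E) (ind_balanced E h)
  intro u v huv
  have huv' : E u v := by
    by_contra hc; exact huv (by unfold ind; simp [hc])
  constructor
  · unfold cOut
    rw [Finset.card_eq_zero, Finset.filter_eq_empty_iff]
    rintro w _ ⟨h1, h2⟩
    exact h0 u v w huv' h2 h1
  · unfold cIn
    rw [Finset.card_eq_zero, Finset.filter_eq_empty_iff]
    rintro w _ ⟨h1, h2⟩
    exact h0 w u v h1 huv' h2

/-- one-sided version with a doubly stochastic matrix supported on the arcs -/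
theorem one_sided (E : V → V → Prop) (h : EulerianOriented E) (x : V → V → ℝ)
    (hnn : ∀ u v, 0 ≤ x u v) (hsupp : ∀ u v, ¬ E u v → x u v = 0)
    (hrow : ∀ u, ∑ v, x u v = 1) (hcol : ∀ v, ∑ u, x u v = 1) :
    (∑ v, ((Out E v).card : ℝ)) - ∑ u, ∑ v, x u v * cOut E u v ≤
      ∑ v, ((N2 E v).card : ℝ) := by
  classical
  have h1 : ∀ u, ∑ v, (x u v * (Out E v).card - x u v * cOut E u v) ≤ ((N2 E u).card : ℝ) := by
    intro u
    have h2 : ∀ v, x u v * (Out E v).card - x u v * cOut E u v ≤ x u v * (N2 E u).card := by
      intro v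
      by_cases huv : E u v
      · have h3 := card_N2_ge E h u v huv
        have h4 : ((Out E v).card : ℝ) ≤ (N2 E u).card + cOut E u v := by exact_mod_cast h3
        nlinarith [hnn u v, mul_le_mul_of_nonneg_left h4 (hnn u v)]
      · rw [hsupp u v huv]; simp
    refine le_trans (Finset.sum_le_sum fun v _ => h2 v) ?_
    rw [← Finset.sum_mul, hrow u, one_mul]
  have h3 := Finset.sum_le_sum (fun u (_ : u ∈ (univ : Finset V)) => h1 u)
  have h4 : ∑ u, ∑ v, (x u v * ((Out E v).card : ℝ) - x u v * cOut E u v) =
      (∑ v, ((Out E v).card : ℝ)) - ∑ u, ∑ v, x u v * cOut E u v := by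
    simp only [Finset.sum_sub_distrib]
    congr 1
    rw [Finset.sum_comm]
    apply Finset.sum_congr rfl; intro v _
    rw [← Finset.sum_mul, hcol v, one_mul]
  rw [h4] at h3
  exact h3

end Pool.Agent.Helper495.SN
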