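import Mathlib

/-!
Thomassé's degree-imbalance inequality with distance at most two replaced by reachability.
-/

set_option autoImplicit false

open Finset
open scoped Classical

namespace Pool.Agent.Helper495.Thom

variable {V : Type} [Fintype V]

/-- Number of out-neighbours. -/
noncomputable def dg (R : V → V → Prop) (v : V) : ℕ := (univ.filter (fun w => R v w)).card

theorem dg_mono {R R' : V → V → Prop} {v v' : V} (h : ∀ w, R v w → R' v' w) :
    dg R v ≤ dg R' v' := by
  unfold dg
  apply card_le_card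
  intro w hw
  simp only [mem_filter, mem_univ, true_and] at hw ⊢
  exact h w hw

theorem dg_congr {R R' : V → V → Prop} {v v' : V} (h : ∀ w, R v w ↔ R' v' w) :
    dg R v = dg R' v' :=
  le_antisymm (dg_mono fun w => (h w).1) (dg_mono fun w => (h w).2)

theorem dg_split {R R1 R2 : V → V → Prop} {v : V} (h : ∀ w, R v w ↔ (R1 v w ∨ R2 v w))
    (hd : ∀ w, R1 v w → ¬ R2 v w) : dg R v = dg R1 v + dg R2 v := by
  unfold dg
  rw [← card_union_of_disjoint]
  · congr 1
    ext w
    simp only [mem_filter, mem_univ, true_and, mem_union]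
    exact h w
  · rw [disjoint_left]
    intro w h1 h2
    simp only [mem_filter, mem_univ, true_and] at h1 h2
    exact hd w h1 h2

theorem dg_zero {R : V → V → Prop} {v : V} (h : ∀ w, ¬ R v w) : dg R v = 0 := by
  unfold dg
  rw [card_eq_zero, filter_eq_empty_iff]
  exact fun w _ => h w

theorem dg_comm (R : V → V → Prop) : ∑ v : V, dg R v = ∑ v : V, dg (fun a b => R b a) v := by
  unfold dg
  simp only [card_filter]
  exact sum_comm

/-- In a strict partial order, an element with at least `k` elements below it has at least `k`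
elements below it, each of which has fewer than `k` elements below it. -/
theorem low (L : V → V → Prop) (irr : ∀ x, ¬ L x x) (tr : ∀ x y z, L x y → L y z → L x z)
    (k : ℕ) : ∀ (n : ℕ) (x : V), dg L x = n → k ≤ n →
      k ≤ dg (fun x y => L x y ∧ dg L y < k) x := by
  intro n
  induction n using Nat.strong_induction_on with
  | _ n ih =>
    intro x hx hk
    by_cases h : ∀ y, L x y → dg L y < k
    · have : dg L x ≤ dg (fun x y => L x y ∧ dg L y < k) x := dg_mono fun w hw => ⟨hw, h w hw⟩
      omega
    · push Not at h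
      obtain ⟨y, hxy, hy⟩ := h
      have hlt : dg L y < dg L x := by
        have h1 : dg L y ≤ dg (fun x w => L x w ∧ w ≠ y) x :=
          dg_mono fun w hw => ⟨tr x y w hxy hw, fun e => irr y (e ▸ hw)⟩
        have h2 : dg L x = dg (fun x w => L x w ∧ w ≠ y) x + dg (fun x w => L x w ∧ w = y) x := by
          apply dg_split
          · intro w
            constructor
            · intro hw
              by_cases e : w = y
              · exact Or.inr ⟨hw, e⟩
              · exact Or.inl ⟨hw, e⟩
            · rintro (hw | hw) <;> exact hw.1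
          · rintro w ⟨-, h1⟩ ⟨-, h2⟩
            exact h1 h2
        have h3 : 0 < dg (fun x w => L x w ∧ w = y) x := by
          unfold dg
          rw [card_pos]
          exact ⟨y, by simp only [mem_filter, mem_univ, true_and]; exact ⟨hxy, trivial⟩⟩
        omega
      have := ih (dg L y) (by omega) y rfl hy
      exact this.trans (dg_mono fun z hz => ⟨tr x y z hxy hz.1, hz.2⟩)

/-- The inequality for a strict partial order. -/
theorem poset (L : V → V → Prop) (irr : ∀ x, ¬ L x x) (tr : ∀ x y z, L x y → L y z → L x z) :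
    ∑ v : V, min (2 * dg L v) (2 * dg (fun a b => L b a) v + 1) ≤ ∑ v : V, dg L v := by
  have h1 : ∀ x : V, dg L x =
      dg (fun x y => L x y ∧ dg L y ≤ dg (fun a b => L b a) x) x +
      dg (fun x y => L x y ∧ dg (fun a b => L b a) x < dg L y) x := by
    intro x
    apply dg_split
    · intro y
      constructor
      · intro h
        rcases le_or_gt (dg L y) (dg (fun a b => L b a) x) with h' | h'
        · exact Or.inl ⟨h, h'⟩
        · exact Or.inr ⟨h, h'⟩
      · rintro (h | h) <;> exact h.1
    · rintro y ⟨-, h1⟩ ⟨-, h2⟩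
      omega
  rw [sum_congr rfl (fun x _ => h1 x), sum_add_distrib,
    dg_comm (fun x y => L x y ∧ dg (fun a b => L b a) x < dg L y), ← sum_add_distrib]
  apply sum_le_sum
  intro v _
  have ha : min (dg L v) (dg (fun a b => L b a) v + 1) ≤
      dg (fun x y => L x y ∧ dg L y ≤ dg (fun a b => L b a) x) v := by
    have := low L irr tr (min (dg L v) (dg (fun a b => L b a) v + 1)) (dg L v) v rfl (min_le_left _ _)
    exact this.trans (dg_mono fun z hz => ⟨hz.1, by have := hz.2; omega⟩)
  have hb : min (dg (fun a b => L b a) v) (dg L v) ≤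
      dg (fun y x => L x y ∧ dg (fun a b => L b a) x < dg L y) v := by
    have := low (fun a b => L b a) irr (fun x y z h1 h2 => tr z y x h2 h1)
      (min (dg (fun a b => L b a) v) (dg L v)) (dg (fun a b => L b a) v) v rfl (min_le_left _ _)
    exact this.trans (dg_mono fun z hz => ⟨hz.1, by have := hz.2; omega⟩)
  omega

/-- The inequality for an oriented graph contained in a transitive relation. -/
theorem preorder_ineq (E Q : V → V → Prop) (irrE : ∀ x, ¬ E x x) (asE : ∀ x y, E x y → ¬ E y x)
    (hEQ : ∀ x y, E x y → Q x y) (tr : ∀ x y z, Q x y → Q y z → Q x z) :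
    ∑ v : V, min (2 * dg E v) (2 * dg (fun a b => E b a) v + 1) ≤
      ∑ v : V, dg (fun v w => v ≠ w ∧ Q v w) v := by
  obtain ⟨L, hL⟩ : ∃ L : V → V → Prop, ∀ a b, L a b ↔ (Q a b ∧ ¬ Q b a) :=
    ⟨fun a b => Q a b ∧ ¬ Q b a, fun _ _ => Iff.rfl⟩
  have irr : ∀ x, ¬ L x x := fun x h => ((hL x x).1 h).2 ((hL x x).1 h).1
  have trL : ∀ x y z, L x y → L y z → L x z := fun x y z h1 h2 => by
    rw [hL] at h1 h2 ⊢
    exact ⟨tr x y z h1.1 h2.1, fun h => h1.2 (tr y z x h2.1 h)⟩
  obtain ⟨O, hO⟩ : ∃ O : V → V → Prop, ∀ a b, O a b ↔ (E a b ∧ Q b a) :=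
    ⟨fun a b => E a b ∧ Q b a, fun _ _ => Iff.rfl⟩
  obtain ⟨u, hu⟩ : ∃ u : V → ℕ, ∀ v, u v = dg (fun a b => L b a) v := ⟨_, fun _ => rfl⟩
  obtain ⟨o, ho'⟩ : ∃ o : V → ℕ, ∀ v, o v = dg O v := ⟨_, fun _ => rfl⟩
  obtain ⟨i, hi'⟩ : ∃ i : V → ℕ, ∀ v, i v = dg (fun a b => O b a) v := ⟨_, fun _ => rfl⟩
  have ho : ∀ v, dg E v ≤ dg L v + o v := by
    intro v
    rw [ho']
    have h1 : dg E v = dg (fun a b => E a b ∧ ¬ Q b a) v + dg O v := by
      apply dg_split
      · intro w
        rw [hO]
        tauto
      · intro w h1 h2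
        rw [hO] at h2
        exact h1.2 h2.2
    have h2 : dg (fun a b => E a b ∧ ¬ Q b a) v ≤ dg L v :=
      dg_mono fun w hw => (hL v w).2 ⟨hEQ _ _ hw.1, hw.2⟩
    omega
  have hi : ∀ v, dg (fun a b => E b a) v ≤ u v + i v := by
    intro v
    rw [hi', hu]
    have h1 : dg (fun a b => E b a) v = dg (fun a b => E b a ∧ ¬ Q a b) v +
        dg (fun a b => O b a) v := by
      apply dg_split
      · intro w
        simp only [hO]
        tauto
      · intro w h1 h2
        simp only [hO] at h2
        exact h1.2 h2.2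
    have h2 : dg (fun a b => E b a ∧ ¬ Q a b) v ≤ dg (fun a b => L b a) v :=
      dg_mono fun w hw => (hL w v).2 ⟨hEQ _ _ hw.1, hw.2⟩
    omega
  -- the numbers above and below are constant on classes
  have cls : ∀ v w, Q v w → Q w v → (dg L v ≤ u v ↔ dg L w ≤ u w) := by
    intro v w h1 h2
    have e1 : dg L v = dg L w := by
      apply dg_congr
      intro z
      rw [hL, hL]
      exact ⟨fun h => ⟨tr _ _ _ h2 h.1, fun h' => h.2 (tr _ _ _ h' h2)⟩,
        fun h => ⟨tr _ _ _ h1 h.1, fun h' => h.2 (tr _ _ _ h' h1)⟩⟩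
    have e2 : u v = u w := by
      rw [hu, hu]
      apply dg_congr
      intro z
      simp only [hL]
      exact ⟨fun h => ⟨tr _ _ _ h.1 h1, fun h' => h.2 (tr _ _ _ h1 h')⟩,
        fun h => ⟨tr _ _ _ h.1 h2, fun h' => h.2 (tr _ _ _ h2 h')⟩⟩
    rw [e1, e2]
  have bal : ∀ (ξ : V → Prop) [DecidablePred ξ], (∀ v w, Q v w → Q w v → (ξ v ↔ ξ w)) →
      ∑ v : V, (if ξ v then o v else 0) = ∑ v : V, (if ξ v then i v else 0) := by
    intro ξ _ hξ
    have l1 : ∀ v, (if ξ v then o v else 0) = dg (fun v w => ξ v ∧ O v w) v := by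
      intro v
      by_cases h : ξ v
      · rw [if_pos h, ho']
        exact dg_congr fun w => by simp only [h, true_and]
      · rw [if_neg h]
        exact (dg_zero fun w hw => h hw.1).symm
    have l2 : ∀ w, (if ξ w then i w else 0) = dg (fun w v => ξ v ∧ O v w) w := by
      intro w
      by_cases h : ξ w
      · rw [if_pos h, hi']
        apply dg_congr
        intro v
        refine ⟨fun h' => ⟨?_, h'⟩, fun h' => h'.2⟩
        have h'' := (hO v w).1 h'
        exact (hξ v w (hEQ _ _ h''.1) h''.2).2 h
      · rw [if_neg h]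
        refine (dg_zero fun v hv => ?_).symm
        have h'' := (hO v w).1 hv.2
        exact h ((hξ v w (hEQ _ _ h''.1) h''.2).1 hv.1)
    rw [sum_congr rfl (fun v _ => l1 v), sum_congr rfl (fun v _ => l2 v)]
    exact dg_comm (fun v w => ξ v ∧ O v w)
  have key : ∑ v : V, 2 * (if dg L v ≤ u v then o v else i v) = ∑ v : V, (o v + i v) := by
    have b1 := bal (fun v => dg L v ≤ u v) cls
    have b2 := bal (fun v => u v < dg L v) (fun v w h1 h2 => by
      have := cls v w h1 h2
      constructor <;> intro h <;> by_contra h' <;> push Not at h'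
      · exact absurd (this.2 h') (not_le.2 h)
      · exact absurd (this.1 h') (not_le.2 h))
    beta_reduce at b1 b2
    have e1 : ∀ v, 2 * (if dg L v ≤ u v then o v else i v) =
        ((if dg L v ≤ u v then o v else 0) + (if dg L v ≤ u v then o v else 0)) +
        ((if u v < dg L v then i v else 0) + (if u v < dg L v then i v else 0)) := by
      intro v
      by_cases h : dg L v ≤ u v
      · rw [if_pos h, if_pos h, if_neg (not_lt.2 h)]; omega
      · rw [if_neg h, if_neg h, if_pos (not_le.1 h)]; omega
    have e2 : ∀ v, o v + i v =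
        ((if dg L v ≤ u v then o v else 0) + (if dg L v ≤ u v then i v else 0)) +
        ((if u v < dg L v then o v else 0) + (if u v < dg L v then i v else 0)) := by
      intro v
      by_cases h : dg L v ≤ u v
      · rw [if_pos h, if_pos h, if_neg (not_lt.2 h), if_neg (not_lt.2 h)]; omega
      · rw [if_neg h, if_neg h, if_pos (not_le.1 h), if_pos (not_le.1 h)]; omega
    rw [sum_congr rfl (fun v _ => e1 v), sum_congr rfl (fun v _ => e2 v)]
    simp only [sum_add_distrib]
    omega
  have oi : ∀ v, o v + i v ≤ dg (fun v w => v ≠ w ∧ Q v w ∧ Q w v) v := by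
    intro v
    rw [ho', hi', ← dg_split (R := fun a b => O a b ∨ O b a) (fun w => Iff.rfl)]
    · apply dg_mono
      rintro w (h | h)
      · have h := (hO _ _).1 h
        exact ⟨fun e => irrE w (e ▸ h.1), hEQ _ _ h.1, h.2⟩
      · have h := (hO _ _).1 h
        exact ⟨fun e => irrE w (e ▸ h.1), h.2, hEQ _ _ h.1⟩
    · intro w h1 h2
      exact asE _ _ ((hO _ _).1 h1).1 ((hO _ _).1 h2).1
  have split : ∀ v, dg (fun v w => v ≠ w ∧ Q v w) v =
      dg L v + dg (fun v w => v ≠ w ∧ Q v w ∧ Q w v) v := by
    intro v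
    apply dg_split
    · intro w
      rw [hL]
      constructor
      · rintro ⟨h1, h2⟩
        by_cases h : Q w v
        · exact Or.inr ⟨h1, h2, h⟩
        · exact Or.inl ⟨h2, h⟩
      · rintro (h | h)
        · exact ⟨fun e => irr v ((hL v v).2 (by subst e; exact h)), h.1⟩
        · exact ⟨h.1, h.2.1⟩
    · intro w h1 h2
      exact ((hL _ _).1 h1).2 h2.2.2
  calc ∑ v : V, min (2 * dg E v) (2 * dg (fun a b => E b a) v + 1)
      ≤ ∑ v : V, (min (2 * dg L v) (2 * dg (fun a b => L b a) v + 1) +
          2 * (if dg L v ≤ u v then o v else i v)) := by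
        apply sum_le_sum
        intro v _
        have h1 := ho v
        have h2 := hi v
        have h3 := hu v
        by_cases h : dg L v ≤ u v
        · rw [if_pos h]; omega
        · rw [if_neg h]; omega
    _ = ∑ v : V, min (2 * dg L v) (2 * dg (fun a b => L b a) v + 1) + ∑ v : V, (o v + i v) := by
        rw [sum_add_distrib, key]
    _ ≤ ∑ v : V, dg L v + ∑ v : V, dg (fun v w => v ≠ w ∧ Q v w ∧ Q w v) v :=
        add_le_add (poset L irr trL) (sum_le_sum fun v _ => oi v)
    _ = _ := by
        rw [← sum_add_distrib]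
        exact (sum_congr rfl fun v _ => split v).symm

/-- Passage to the form with absolute values. -/
theorem abs_form (E : V → V → Prop) (m : ℕ)
    (h : ∑ v : V, min (2 * dg E v) (2 * dg (fun a b => E b a) v + 1) ≤ m) :
    2 * ((univ.filter (fun p : V × V => E p.1 p.2)).card : ℤ) +
        ((univ.filter (fun v => dg (fun a b => E b a) v < dg E v)).card : ℤ) ≤
      ∑ v : V, |(dg E v : ℤ) - (dg (fun a b => E b a) v : ℤ)| + m := by
  have h1 : (univ.filter (fun p : V × V => E p.1 p.2)).card = ∑ v : V, dg E v := by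
    unfold dg
    simp only [card_filter]
    rw [← univ_product_univ, sum_product]
  have h2 := dg_comm E
  have h3 : ∀ v : V, (dg E v : ℤ) + (dg (fun a b => E b a) v : ℤ) +
      (if dg (fun a b => E b a) v < dg E v then 1 else 0) ≤
      |(dg E v : ℤ) - (dg (fun a b => E b a) v : ℤ)| +
        ((min (2 * dg E v) (2 * dg (fun a b => E b a) v + 1) : ℕ) : ℤ) := by
    intro v
    split_ifs with hlt
    · rw [abs_of_nonneg (by omega)]
      omega
    · rw [abs_of_nonpos (by omega)]
      omega
  have h4 := sum_le_sum (fun v (_ : v ∈ (univ : Finset V)) => h3 v)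
  simp only [sum_add_distrib] at h4
  have h5 : (((univ.filter (fun v => dg (fun a b => E b a) v < dg E v)).card : ℕ) : ℤ) =
      ∑ v : V, (if dg (fun a b => E b a) v < dg E v then (1 : ℤ) else 0) := by
    rw [card_filter]
    push_cast
    rfl
  have h6 : ((∑ v : V, min (2 * dg E v) (2 * dg (fun a b => E b a) v + 1) : ℕ) : ℤ) ≤ m := by
    exact_mod_cast h
  rw [h5, h1]
  push_cast at h6 h4 ⊢
  have h7 : (∑ v : V, (dg E v : ℤ)) = ∑ v : V, (dg (fun a b => E b a) v : ℤ) := by
    exact_mod_cast h2
  linarith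

end Pool.Agent.Helper495.Thom
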